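import Pool.Agent.Helper16.NR.Stmts2

/-!
# A curve comes from at most 27 good tuples
-/

set_option autoImplicit false

namespace Pool.Helper16.NR

theorem fib_eq (t : ℕ × ℕ × ℕ × ℕ) :
    (tu t * tx1 t + tv t) ^ 2 = tx1 t ^ 3 + tA t * tx1 t + tB t ∧
    (tu t * tx2 t + tv t) ^ 2 = tx2 t ^ 3 + tA t * tx2 t + tB t ∧
    (tu t * tx3 t + tv t) ^ 2 = tx3 t ^ 3 + tA t * tx3 t + tB t := by
  unfold tA tB tx3
  refine ⟨?_, ?_, ?_⟩ <;> ring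

theorem fib_bd (m : ℕ) (t : ℕ × ℕ × ℕ × ℕ) (ht : t ∈ TT m) :
    |tx1 t| ≤ 20000 * (m : ℤ) ^ 2 ∧ |tx2 t| ≤ 20000 * (m : ℤ) ^ 2 ∧
      |tx3 t| ≤ 20000 * (m : ℤ) ^ 2 := by
  unfold TT at ht
  rw [Finset.mem_product, Finset.mem_product, Finset.mem_product, Finset.mem_range,
    Finset.mem_range, Finset.mem_Ico] at ht
  obtain ⟨h1, h2, ⟨-, h3⟩, -⟩ := ht
  have a1 : (t.1 : ℤ) + 1 ≤ (m : ℤ) ^ 2 := by exact_mod_cast h1
  have a2 : (t.2.1 : ℤ) + 1 ≤ (m : ℤ) ^ 2 := by exact_mod_cast h2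
  have a3 : (t.2.2.1 : ℤ) ≤ 2 * (m : ℤ) := by
    have : t.2.2.1 ≤ 2 * m := h3.le
    exact_mod_cast this
  have b1 : (0 : ℤ) ≤ t.1 := Int.natCast_nonneg _
  have b2 : (0 : ℤ) ≤ t.2.1 := Int.natCast_nonneg _
  have b3 : (0 : ℤ) ≤ t.2.2.1 := Int.natCast_nonneg _
  have a4 : (t.2.2.1 : ℤ) ^ 2 ≤ 4 * (m : ℤ) ^ 2 := by nlinarith
  have b4 : (0 : ℤ) ≤ (t.2.2.1 : ℤ) ^ 2 := sq_nonneg _
  unfold tx3 tu tx1 tx2
  refine ⟨?_, ?_, ?_⟩
  · rw [abs_le]; constructor <;> nlinarith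
  · rw [abs_le]; constructor <;> nlinarith
  · rw [abs_le]; constructor <;> nlinarith

theorem fib_mem (m : ℕ) (A B : ℤ) (t t0 : ℕ × ℕ × ℕ × ℕ) (ht : t ∈ TT m)
    (hA : tA t = A) (hB : tB t = B) (hA0 : tA t0 = A) (hB0 : tB t0 = B) (h0 : ¬ Bad m t0) :
    ((tx1 t, tx2 t, tx3 t) : ℤ × ℤ × ℤ) ∈ ({tx1 t0, tx2 t0, tx3 t0} : Finset ℤ) ×ˢ
      ({tx1 t0, tx2 t0, tx3 t0} : Finset ℤ) ×ˢ ({tx1 t0, tx2 t0, tx3 t0} : Finset ℤ) := by
  have key : ∀ x y : ℤ, |x| ≤ 20000 * (m : ℤ) ^ 2 → y ^ 2 = x ^ 3 + tA t * x + tB t →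
      x ∈ ({tx1 t0, tx2 t0, tx3 t0} : Finset ℤ) := by
    intro x y hx hy
    by_contra hcon
    simp only [Finset.mem_insert, Finset.mem_singleton, not_or] at hcon
    apply h0
    refine ⟨x, y, hx, hcon.1, hcon.2.1, hcon.2.2, ?_⟩
    rw [hA0, hB0, ← hA, ← hB]
    exact hy
  obtain ⟨e1, e2, e3⟩ := fib_eq t
  obtain ⟨b1, b2, b3⟩ := fib_bd m t ht
  rw [Finset.mem_product, Finset.mem_product]
  exact ⟨key _ _ b1 e1, key _ _ b2 e2, key _ _ b3 e3⟩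

theorem fib_inj (m : ℕ) (hm : 1 ≤ m) (t t' : ℕ × ℕ × ℕ × ℕ) (ht : t ∈ TT m) (ht' : t' ∈ TT m)
    (hB : tB t = tB t') (h1 : tx1 t = tx1 t') (h2 : tx2 t = tx2 t') (h3 : tx3 t = tx3 t') :
    t = t' := by
  unfold TT at ht ht'
  rw [Finset.mem_product, Finset.mem_product, Finset.mem_product, Finset.mem_Ico] at ht ht'
  obtain ⟨-, -, ⟨c1, -⟩, -⟩ := ht
  obtain ⟨-, -, ⟨c2, -⟩, -⟩ := ht'
  have hu : tu t ^ 2 = tu t' ^ 2 := by
    have e1 : tu t ^ 2 = tx1 t + tx2 t + tx3 t := by unfold tx3; ring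
    have e2 : tu t' ^ 2 = tx1 t' + tx2 t' + tx3 t' := by unfold tx3; ring
    rw [e1, e2, h1, h2, h3]
  have hv : tv t ^ 2 = tv t' ^ 2 := by
    have e1 : tv t ^ 2 = tB t + tx1 t * tx2 t * tx3 t := by unfold tB; ring
    have e2 : tv t' ^ 2 = tB t' + tx1 t' * tx2 t' * tx3 t' := by unfold tB; ring
    rw [e1, e2, hB, h1, h2, h3]
  have pu : ∀ s : ℕ × ℕ × ℕ × ℕ, 0 ≤ tu s := fun s => by unfold tu; positivity
  have pv : ∀ s : ℕ × ℕ × ℕ × ℕ, 0 ≤ tv s := fun s => by unfold tv; positivity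
  have hu' : tu t = tu t' := (pow_left_inj₀ (pu t) (pu t') two_ne_zero).1 hu
  have hv' : tv t = tv t' := (pow_left_inj₀ (pv t) (pv t') two_ne_zero).1 hv
  unfold tx1 at h1
  unfold tx2 at h2
  unfold tu at hu'
  unfold tv at hv'
  obtain ⟨k1, k2, j, l⟩ := t
  obtain ⟨k1', k2', j', l'⟩ := t'
  simp only at h1 h2 hu' hv'
  have g1 : k1 = k1' := by omega
  have g2 : k2 = k2' := by omega
  have g3 : j = j' := by omega
  have g4 : l = l' := by omega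
  rw [g1, g2, g3, g4]

/-- A curve comes from at most 27 good tuples. -/
theorem st_FIB : ST_FIB := by
  intro m A B hm
  classical
  rcases Finset.eq_empty_or_nonempty ((TT m).filter (fun t => ¬ Bad m t ∧ tA t = A ∧ tB t = B))
    with h | ⟨t0, ht0⟩
  · rw [h]
    simp
  · rw [Finset.mem_filter] at ht0
    obtain ⟨-, h0, hA0, hB0⟩ := ht0
    have hR : ({tx1 t0, tx2 t0, tx3 t0} : Finset ℤ).card ≤ 3 := Finset.card_le_three
    have hle : ((TT m).filter (fun t => ¬ Bad m t ∧ tA t = A ∧ tB t = B)).card ≤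
        (({tx1 t0, tx2 t0, tx3 t0} : Finset ℤ) ×ˢ ({tx1 t0, tx2 t0, tx3 t0} : Finset ℤ) ×ˢ
          ({tx1 t0, tx2 t0, tx3 t0} : Finset ℤ)).card := by
      refine Finset.card_le_card_of_injOn (fun t => (tx1 t, tx2 t, tx3 t)) ?_ ?_
      · intro t ht
        rw [Finset.mem_coe, Finset.mem_filter] at ht
        exact fib_mem m A B t t0 ht.1 ht.2.2.1 ht.2.2.2 hA0 hB0 h0
      · intro t ht t' ht' heq
        rw [Finset.mem_coe, Finset.mem_filter] at ht ht'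
        simp only [Prod.mk.injEq] at heq
        exact fib_inj m hm t t' ht.1 ht'.1 (by rw [ht.2.2.2, ht'.2.2.2]) heq.1 heq.2.1 heq.2.2
    rw [Finset.card_product, Finset.card_product] at hle
    refine hle.trans ?_
    calc ({tx1 t0, tx2 t0, tx3 t0} : Finset ℤ).card * (({tx1 t0, tx2 t0, tx3 t0} : Finset ℤ).card *
          ({tx1 t0, tx2 t0, tx3 t0} : Finset ℤ).card) ≤ 3 * (3 * 3) :=
          Nat.mul_le_mul hR (Nat.mul_le_mul hR hR)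
      _ = 27 := by norm_num

end Pool.Helper16.NR
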