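import Pool.Agent.Helper16.NR.Stmts

/-!
# Lower bound for the number of pairs
-/

set_option autoImplicit false

namespace Pool.Helper16.NR

theorem low_aux (P : Finset ℤ) (d : ℤ) (hd : 0 < d) :
    (P.card : ℝ) ^ 2 ≤ d * (((P ×ˢ P).filter (fun q => d ∣ (q.1 ^ 2 - q.2 ^ 2))).card : ℝ) := by
  classical
  have h1 : P.card = ∑ c ∈ Finset.Ico 0 d, (P.filter (fun p => p ^ 2 % d = c)).card := by
    refine Finset.card_eq_sum_card_fiberwise fun p _ => ?_
    rw [Finset.mem_coe, Finset.mem_Ico]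
    exact ⟨Int.emod_nonneg _ hd.ne', Int.emod_lt_of_pos _ hd⟩
  have h2 : ((P ×ˢ P).filter (fun q => d ∣ (q.1 ^ 2 - q.2 ^ 2))).card =
      ∑ c ∈ Finset.Ico 0 d, (P.filter (fun p => p ^ 2 % d = c)).card ^ 2 := by
    rw [Finset.card_eq_sum_card_fiberwise (f := fun q : ℤ × ℤ => q.1 ^ 2 % d)
      (t := Finset.Ico 0 d)]
    · refine Finset.sum_congr rfl fun c _ => ?_
      rw [sq, ← Finset.card_product]
      congr 1
      ext q
      simp only [Finset.mem_filter, Finset.mem_product]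
      have h3 : d ∣ (q.1 ^ 2 - q.2 ^ 2) ↔ q.1 ^ 2 % d = q.2 ^ 2 % d := by
        rw [Int.emod_eq_emod_iff_emod_sub_eq_zero, Int.dvd_iff_emod_eq_zero]
      rw [h3]
      constructor
      · rintro ⟨⟨⟨a, b⟩, c⟩, e⟩
        exact ⟨⟨a, e⟩, b, by rw [← c, e]⟩
      · rintro ⟨⟨a, b⟩, c, e⟩
        exact ⟨⟨⟨a, c⟩, by rw [b, e]⟩, b⟩
    · intro q _
      rw [Finset.mem_coe, Finset.mem_Ico]
      exact ⟨Int.emod_nonneg _ hd.ne', Int.emod_lt_of_pos _ hd⟩
  have h3 := sq_sum_le_card_mul_sum_sq (s := Finset.Ico 0 d)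
    (f := fun c => ((P.filter (fun p => p ^ 2 % d = c)).card : ℝ))
  have h4 : ((Finset.Ico 0 d).card : ℝ) = d := by
    rw [Int.card_Ico, sub_zero]
    have : ((d.toNat : ℤ) : ℝ) = (d : ℝ) := by rw [Int.toNat_of_nonneg hd.le]
    exact_mod_cast this
  rw [h4] at h3
  rw [h2]
  conv_lhs => rw [h1]
  push_cast
  exact h3

/-- Lower bound for the number of pairs. -/
theorem st_LOW : ST_LOW := by
  intro X I1 I2 P hX h
  classical
  have hX' : (0 : ℝ) < X := by exact_mod_cast hX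
  have e1 : ((GP I1 I2 P).card : ℝ) = ∑ x ∈ I1, ∑ y ∈ I2,
      (((P ×ˢ P).filter (fun q => (x - y) ∣ (q.1 ^ 2 - q.2 ^ 2))).card : ℝ) := by
    unfold GP
    rw [Finset.card_filter, Finset.sum_product]
    push_cast
    refine Finset.sum_congr rfl fun x _ => ?_
    rw [Finset.sum_product]
    refine Finset.sum_congr rfl fun y _ => ?_
    rw [Finset.card_filter]
    push_cast
    rfl
  have e2 : (I1.card : ℝ) * I2.card * (P.card : ℝ) ^ 2 / X =
      ∑ _x ∈ I1, ∑ _y ∈ I2, (P.card : ℝ) ^ 2 / X := by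
    rw [Finset.sum_const, Finset.sum_const, nsmul_eq_mul, nsmul_eq_mul]
    ring
  rw [e1, e2]
  refine Finset.sum_le_sum fun x hx => Finset.sum_le_sum fun y hy => ?_
  obtain ⟨h1, h2⟩ := h x hx y hy
  have h3 := low_aux P (x - y) h1
  rw [div_le_iff₀ hX']
  refine h3.trans ?_
  rw [mul_comm]
  refine mul_le_mul_of_nonneg_left ?_ (Nat.cast_nonneg _)
  have h4 : ((x - y : ℤ) : ℝ) ≤ ((X : ℤ) : ℝ) := by exact_mod_cast h2
  simpa using h4

end Pool.Helper16.NR
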